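import Mathlib
import Pool.Agent.R367.IG.Sec

/-!
For every finite group `G` (perfect or not, solvable or not, realizable or not) and all
`n ≥ ((3 |G| + 2)!)^3`, the commutator subgroup `P` of `G ≀ S_n` is perfect, and the perfect groups
`P ≀ A_r` with `r = 8 k + 4` large in terms of `n` are regular Galois groups over `K(t)` for every
field `K` of characteristic zero, and Galois groups over every number field.
-/

set_option autoImplicit false

namespace Pool.Agent.Results.MP_dadaab_nt.CommutatorTowers

/-- The wreath product `G ≀ S_n = G^n ⋊ S_n`. -/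
abbrev Wreath (G : Type) [Group G] (n : ℕ) : Type :=
  (Fin n → G) ⋊[mulAutArrow] Equiv.Perm (Fin n)

/-- The commutator subgroup of the wreath product `G ≀ S_n`, as a group. -/
def CommWreath (G : Type) [Group G] (n : ℕ) : Type := commutator (Wreath G n)

/-- Its group structure. -/
instance instGroup (G : Type) [Group G] (n : ℕ) : Group (CommWreath G n) :=
  inferInstanceAs (Group (commutator (Wreath G n)))

/-- The alternating wreath product `G ≀ A_n`: the elements of `G ≀ S_n` over even permutations. -/
def AltWreath (G : Type) [Group G] (n : ℕ) : Type :=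
  (Equiv.Perm.sign.comp (SemidirectProduct.rightHom : Wreath G n →* Equiv.Perm (Fin n))).ker

/-- Its group structure. -/
instance instGroup2 (G : Type) [Group G] (n : ℕ) : Group (AltWreath G n) :=
  inferInstanceAs (Group (Equiv.Perm.sign.comp
    (SemidirectProduct.rightHom : Wreath G n →* Equiv.Perm (Fin n))).ker)

/-- The commutator subgroup of `G ≀ S_n` is the group of the `(f, σ)` with `∏ [f_i] = 1` in the
abelianization of `G` and `σ` even. -/
def CommDescription (G : Type) [Group G] (n : ℕ) : Prop :=
  ∀ x : Wreath G n, x ∈ commutator (Wreath G n) ↔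
    ∏ i, Abelianization.of (x.left i) = 1 ∧ Equiv.Perm.sign x.right = 1

/-- `A` is the Galois group of a Galois extension of `K`. -/
def Realizable (K A : Type) [Field K] [Group A] : Prop :=
  ∃ (L : Type) (_ : Field L) (_ : Algebra K L), IsGalois K L ∧ Nonempty (A ≃* (L ≃ₐ[K] L))

/-- `A` is the Galois group of a Galois extension of `K(t)` in which `K` is algebraically
closed. -/
def RegularlyRealizable (K A : Type) [Field K] [Group A] : Prop :=
  ∃ (F : Type) (_ : Field F) (_ : Algebra (RatFunc K) F) (_ : Algebra K F)
    (_ : IsScalarTower K (RatFunc K) F),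
    IsGalois (RatFunc K) F ∧ Nonempty (A ≃* (F ≃ₐ[RatFunc K] F)) ∧
      ∀ y : F, IsAlgebraic K y → y ∈ Set.range (algebraMap K F)

theorem result (G : Type) [Group G] [Finite G] (K : Type) [Field K] [CharZero K] (n : ℕ)
    (hn : ((3 * Nat.card G + 2).factorial) ^ 3 ≤ n) :
    CommDescription G n ∧ commutator (CommWreath G n) = ⊤ ∧
      ∃ k₀ : ℕ, ∀ k ≥ k₀,
        RegularlyRealizable K (AltWreath (CommWreath G n) (8 * k + 4)) ∧
        (NumberField K → Realizable K (AltWreath (CommWreath G n) (8 * k + 4))) := by
  have h5 : 5 ≤ n := R367.IG.five_le Nat.card_pos hn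
  obtain ⟨k₀, h2⟩ := R367.IG.main_unif K G n hn
  refine ⟨fun x => ?_, R367.IG.comm_perf h5, k₀, fun k hk => ?_⟩
  · rw [R367.IG.ev_eq h5]
    exact R367.IG.mem_Ev x
  · have h3 := h2 k hk
    refine ⟨Y793.reg_out K _ h3, fun hK => ?_⟩
    have hf : Finite (H391R2.Wr G n) := H391R2.T4.finite_wr G n
    have hf2 : Finite (H391R2.Wr (commutator (H391R2.Wr G n)) (8 * k + 4)) :=
      H391R2.T4.finite_wr _ _
    have hf3 : Finite (AltWreath (CommWreath G n) (8 * k + 4)) :=
      Subtype.finite (α := H391R2.Wr (commutator (H391R2.Wr G n)) (8 * k + 4))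
    exact Y793.hil_out K _ (H391R2.T4.hilb_numberField K) h3

end Pool.Agent.Results.MP_dadaab_nt.CommutatorTowers
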