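import Mathlib
import Pool.Agent.R367.IG.RealN

/-!
# A closure property of the class of Galois groups over a number field

`Γ` is a finite group which is a Galois group over the number field `K` (for example `ℚ`), and `G` is
any finite group with any action `φ` of `Γ`.

* `Wr G n` is the wreath product `G ≀ S_n = (Fin n → G) ⋊ Perm (Fin n)`; `wrAct φ n` is the
  coordinatewise action of `Γ` on it, and `EG φ n` is the semidirect product `(G ≀ S_n) ⋊ Γ`.
* `NO φ n` is the subgroup of the elements `(f, σ, ρ)` of `EG φ n` with `∏ [f i] = 1` in the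
  abelianization of `G`.

The theorem: for all `n ≥ ((3 |G| + 2)!)^3` the group `NO φ n = {(f, σ) : ∏ [f i] = 1} ⋊ Γ` is a
Galois group over `K`.
-/

set_option autoImplicit false

open Nfff32c05 Pool.Agent.H391R2 Pool.Agent.H391R2.T4 Pool.Agent.R367.IG

theorem Pool.Agent.Results.MP_dadaab_nt.NormOneSemidirect.result :
    ∀ (K : Type) [Field K] [NumberField K] (Γ : Type) [Group Γ] [Finite Γ], IsRealizable K Γ →
      ∀ (G : Type) [Group G] [Finite G] (φ : Γ →* MulAut G) (n : ℕ),
        ((3 * Nat.card G + 2).factorial) ^ 3 ≤ n → IsRealizable K (NO φ n) := by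
  intro K _ _ Γ _ _ hΓ G _ _ φ n hn
  exact real_no K (hilb_numberField K) Γ hΓ G φ n hn
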