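import Mathlib
import Pool.Agent.R768.IG.Final

/-!
# Every finite group has a finite cover whose realizations over `ℚ` give it Scholz type
realizations

For every finite group `G` and every `M` there are a finite group `Γ` and an epimorphism `Γ → G`
with abelian kernel such that in every Galois extension `L` of `ℚ` with group `Γ` the subfield `F`
with group `G` is totally real and satisfies local conditions of Scholz type at all prime numbers.
So the inverse Galois problem over `ℚ` is equivalent to the problem with these conditions.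
-/

set_option autoImplicit false

open scoped Pointwise NumberField

namespace Pool.Agent.Results.MP_dadaab_nt.ScholzCover

/-- If `ℓ` divides the ramification index of the prime ideal `P` over `p`, then `ℓ ^ M` divides
`p ^ gcd (f, ℓ - 1) - 1`, where `f` is the residue degree of `P`. -/
def TameAt (F : Type) [Field F] [NumberField F] (M p ℓ : ℕ) (P : Ideal (𝓞 F)) : Prop :=
  ℓ ∣ P.ramificationIdx ℤ → ℓ ^ M ∣ p ^ Nat.gcd (P.inertiaDeg ℤ) (ℓ - 1) - 1

/-- All `ℓ`-subgroups of the decomposition group of `P` in the automorphism group of `F` are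
cyclic. -/
def CyclicAt (F : Type) [Field F] [NumberField F] (ℓ : ℕ) (P : Ideal (𝓞 F)) : Prop :=
  ∀ Q : Subgroup (F ≃ₐ[ℚ] F), Q ≤ MulAction.stabilizer (F ≃ₐ[ℚ] F) P → IsPGroup ℓ Q → IsCyclic Q

/-- `F` is totally real and satisfies the conditions `TameAt` and `CyclicAt` for all pairs of
different prime numbers `p`, `ℓ` and all prime ideals `P` over `p`. -/
def Scholz (F : Type) [Field F] [NumberField F] (M : ℕ) : Prop :=
  NumberField.IsTotallyReal F ∧ ∀ p ℓ : ℕ, p.Prime → ℓ.Prime → ℓ ≠ p →
    ∀ P : Ideal (𝓞 F), P.IsPrime → (p : 𝓞 F) ∈ P → TameAt F M p ℓ P ∧ CyclicAt F ℓ P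

/-- `F` is Galois over `ℚ` with group isomorphic to `G` and satisfies `Scholz`. -/
def ScholzRealization (G : Type) [Group G] (M : ℕ) (F : Type) [Field F] [NumberField F] : Prop :=
  IsGalois ℚ F ∧ Nonempty (G ≃* (F ≃ₐ[ℚ] F)) ∧ Scholz F M

/-- For every Galois number field `L` and every isomorphism `e` of its group with `Γ` the fixed
field of the kernel of `c ∘ e` is a Scholz realization of `G`. -/
def Forces {Γ G : Type} [Group Γ] [Group G] (c : Γ →* G) (M : ℕ) : Prop :=
  ∀ (L : Type) [Field L] [NumberField L] [IsGalois ℚ L] (e : (L ≃ₐ[ℚ] L) ≃* Γ),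
    ScholzRealization G M (IntermediateField.fixedField (c.comp e.toMonoidHom).ker)

end Pool.Agent.Results.MP_dadaab_nt.ScholzCover

open Pool.Agent.Results.MP_dadaab_nt.ScholzCover in
theorem Pool.Agent.Results.MP_dadaab_nt.ScholzCover.result :
    ∀ (G : Type) [Group G] [Finite G] (M : ℕ),
      ∃ (Γ : Type) (_ : Group Γ) (_ : Finite Γ) (c : Γ →* G), Function.Surjective c ∧
        IsMulCommutative c.ker ∧ (∀ q : ℕ, q.Prime → q ∣ Nat.card Γ → q ∣ Nat.card G) ∧
        Forces c M := by
  intro G _ _ M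
  have hE : 0 < Nat.card G ^ (M + 1) := pow_pos Nat.card_pos _
  have hfin := Pool.Agent.R768.IG.cov_finite G hE
  refine ⟨Pool.Agent.R768.IG.Cov G (Nat.card G ^ (M + 1)), inferInstance, hfin,
    Pool.Agent.R768.IG.cpr G _, Pool.Agent.R768.IG.cpr_surj G _, ?_,
    fun q hq h => Pool.Agent.R768.IG.prime_dvd_cov G (M + 1) q hq h, ?_⟩
  · refine ⟨⟨fun a b => Subtype.ext ?_⟩⟩
    exact Pool.Agent.R768.IG.ker_comm G (Nat.card G ^ (M + 1)) a.1 b.1
      (MonoidHom.mem_ker.1 a.2) (MonoidHom.mem_ker.1 b.2)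
  · intro L _ _ _ e
    obtain ⟨h1, h2, h3, h4⟩ := Pool.Agent.R768.IG.field_part M L e _ rfl
    exact ⟨h1, h2, h3, h4⟩
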