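import Mathlib
import Pool.Agent.R70.IG.Final

/-!
# The inverse Galois problem over totally real fields of degree `p^∞` with finite local degrees

Let `A` be an infinite set of positive integers, for example the set of all powers of a prime `p`
or any infinite set of primes. Then there is an algebraic extension `F` of `ℚ` such that

* the degree of every finite subextension of `F / ℚ` divides a product of distinct elements of `A`
  (so it is a power of `p` in the first example),
* `F` is totally real, and for every prime `q` the images of all embeddings of `F` into the algebraic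
  closure of `ℚ_q` lie in one finite extension of `ℚ_q`,
* every direct product of countably many finite groups, in particular every finite group, is the
  Galois group of a Galois extension `M` of `F`, and `M` can be chosen totally real with finite local
  degrees at all primes.

So the inverse Galois problem has a positive answer over `F`.
-/

set_option autoImplicit false

namespace Pool.Agent.Results.MP_dadaab_nt.SparseDegreeField

/-- For the prime `q` the images of all embeddings of `K` into the algebraic closure of `ℚ_q` lie in
one finite extension of `ℚ_q`. -/
def FiniteLocalDegree (K : Type) [Field K] (q : ℕ) [Fact q.Prime] : Prop :=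
  ∃ E : IntermediateField ℚ_[q] (AlgebraicClosure ℚ_[q]), FiniteDimensional ℚ_[q] E ∧
    ∀ (σ : K →+* AlgebraicClosure ℚ_[q]) (x : K), σ x ∈ E

/-- `K` is totally real and has finite local degrees at all primes. -/
def RealFiniteLocal (K : Type) [Field K] : Prop :=
  NumberField.IsTotallyReal K ∧ ∀ (q : ℕ) [Fact q.Prime], FiniteLocalDegree K q

/-- The degree of every finite subextension of `F / ℚ` divides a product of distinct elements
of `A`. -/
def DegreesIn (A : Set ℕ) (F : Type) [Field F] [Algebra ℚ F] : Prop :=
  ∀ E : IntermediateField ℚ F, FiniteDimensional ℚ E →
    ∃ T : Finset ℕ, (T : Set ℕ) ⊆ A ∧ Module.finrank ℚ E ∣ ∏ a ∈ T, a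

/-- Every direct product of countably many finite groups is the Galois group of a Galois extension of
`F` which is totally real with finite local degrees at all primes. -/
def RealizesProducts (F : Type) [Field F] : Prop :=
  ∀ (H : ℕ → Type) [∀ j, Group (H j)] [∀ j, Finite (H j)],
    ∃ (M : Type) (_ : Field M) (_ : Algebra F M), IsGalois F M ∧
      Nonempty ((M ≃ₐ[F] M) ≃* ∀ j, H j) ∧ RealFiniteLocal M

end Pool.Agent.Results.MP_dadaab_nt.SparseDegreeField

open Pool.Agent.Results.MP_dadaab_nt.SparseDegreeField in
theorem Pool.Agent.Results.MP_dadaab_nt.SparseDegreeField.result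
    (A : Set ℕ) (hA : A.Infinite) (h0 : 0 ∉ A) :
    ∃ (F : Type) (_ : Field F) (_ : Algebra ℚ F), Algebra.IsAlgebraic ℚ F ∧
      DegreesIn A F ∧ RealFiniteLocal F ∧ RealizesProducts F := by
  obtain ⟨F, i1, i2, h1, h2, h3, h4⟩ := Pool.Agent.R70.IG.main A hA h0
  exact ⟨F, i1, i2, h1, h3, h2, fun H _ _ => h4 H⟩
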